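import Pool.Agent.TH829.Kim.Defs

/-!
# The conjecture of Beilinson for endomorphisms of motives: definitions
-/

open CategoryTheory AlgebraicGeometry

universe u v w

namespace Pool.Agent.Y121.NB

open Pool.Agent.H914 Pool.Agent.H914.VarClass Pool.Agent.H914.VarClass.Obj Pool.Agent.W492.BB
  Pool.Agent.W550.Corr Pool.Agent.TH133

variable {k : Type u} [Field k] {𝒱 : VarClass k} {C : TheoryData.{u, v, 0} 𝒱 ℚ}

/-- The class `z` (of any degrees) is numerically trivial: the degree of `z b` is zero for all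
classes `b`. -/
def NumTriv (C : TheoryData.{u, v, 0} 𝒱 ℚ) {Z : 𝒱.Obj} (z : C.A Z) : Prop :=
  ∀ b : C.A Z, HasDegree C (C.mul z b) 0

/-- The composition `e ∘ x ∘ e`, an element of `K_0(𝒜^op ⊗ 𝒜)_ℚ` for `𝒜 = (X, e)`. -/
noncomputable def corner (C : TheoryData.{u, v, 0} 𝒱 ℚ) {X : 𝒱.Obj} (e x : C.A (X.prod X)) :
    C.A (X.prod X) := C.comp (C.comp e x) e

/-- The noncommutative conjecture of Beilinson for `𝒜^op ⊗ 𝒜`, where `𝒜 = (X, e)` is a direct
summand of the noncommutative motive of `X`: the numerically trivial elements of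
`K_0(𝒜^op ⊗ 𝒜)_ℚ = e ∘ CH^*(X × X)_ℚ ∘ e` are zero. -/
def BeilNC (C : TheoryData.{u, v, 0} 𝒱 ℚ) {X : 𝒱.Obj} (e : C.A (X.prod X)) : Prop :=
  ∀ x : C.A (X.prod X), NumTriv C (corner C e x) → corner C e x = 0

/-- The conjecture of Beilinson for the Chow motive `M^∨ ⊗ M`, where `M = (X, p)`: rational and
numerical equivalence coincide on `p ∘ CH^i(X × X)_ℚ ∘ p`, for all `i`. -/
def BeilChow (C : TheoryData.{u, v, 0} 𝒱 ℚ) {X : 𝒱.Obj} (p : C.A (X.prod X)) : Prop :=
  ∀ (i : ℤ) (x : C.A (X.prod X)), C.Deg i x → NumTriv C (corner C p x) → corner C p x = 0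

end Pool.Agent.Y121.NB
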