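import Pool.Agent.Y121.NK.StdD
import Pool.Agent.Y121.NB.Defs

/-!
# The conjecture of Beilinson for endomorphisms of noncommutative motives of geometric origin
-/

open CategoryTheory AlgebraicGeometry

universe u v w

namespace Pool.Agent.Y121.NB

open Pool.Agent.H914 Pool.Agent.H914.VarClass Pool.Agent.H914.VarClass.Obj Pool.Agent.W492.BB
  Pool.Agent.W550.Corr Pool.Agent.TH133 Pool.Agent.TH829.Prime Pool.Agent.TH829.Kim
  Pool.Agent.Y121.NK

set_option linter.unusedSectionVars false

variable {k : Type u} [Field k] {𝒱 : VarClass k}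

section chow

variable {C : TheoryData.{u, v, 0} 𝒱 ℚ} [hC : IsChowProj C] {X : 𝒱.Obj}

include hC

lemma numTriv_iff (hne : ∀ X : 𝒱.Obj, (1 : C.A X) ≠ 0) {z : Cor C X} :
    NumTriv C (cA C X z) ↔ InRad (trA hne X) z := numZero_iff hne

lemma corner_eq (e x : Cor C X) : corner C (cA C X e) (cA C X x) = cA C X (e * x * e) := by
  rw [mul_assoc]
  rfl

lemma beilNC_iff (hne : ∀ X : 𝒱.Obj, (1 : C.A X) ≠ 0) {e : Cor C X} :
    BeilNC C (cA C X e) ↔ ∀ x : Cor C X, InRad (trA hne X) (e * x * e) → e * x * e = 0 := by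
  constructor
  · intro h x hx
    have h1 := h (cA C X x)
    rw [corner_eq, numTriv_iff hne] at h1
    exact cA_inj (h1 hx)
  · intro h x hx
    obtain ⟨x', hx'⟩ : ∃ x' : Cor C X, cA C X x' = x := ⟨x, rfl⟩
    subst hx'
    rw [corner_eq] at hx ⊢
    rw [h _ ((numTriv_iff hne).1 hx), map_zero]

lemma beilChow_iff (hne : ∀ X : 𝒱.Obj, (1 : C.A X) ≠ 0) {e : Cor C X}
    (he : (grading C X).pr 0 e = e) :
    BeilChow C (cA C X e) ↔ ∀ x : Cor C X, InRad (trA hne X) (e * x * e) → e * x * e = 0 := by
  rw [← beilNC_iff hne]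
  constructor
  · intro h
    rw [beilNC_iff hne]
    intro x hx
    have h1 : ∀ j, e * (grading C X).pr j x * e = (grading C X).pr j (e * x * e) := by
      intro j
      have h2 := (grading C X).pr_mul_left 0 j e x he
      have h3 := (grading C X).pr_mul_right j 0 (e * x) e he
      rw [zero_add] at h2
      rw [add_zero] at h3
      rw [h3, h2]
    rw [← (grading C X).sum_pr (e * x * e)]
    refine Finset.sum_eq_zero fun j _ => ?_
    rw [← h1]
    have h5 := h (X.dim + j) (cA C X ((grading C X).pr j x)) (by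
      have h6 := (grading C X).pr_self j x
      rw [grading_pr, prC_iff] at h6
      exact h6)
    rw [corner_eq] at h5
    apply cA_inj
    rw [map_zero]
    apply h5
    rw [numTriv_iff hne, h1]
    exact (grading C X).inRad_pr (fun j x hj => trA_pr j x hj) hx j
  · intro h i x _ hx
    exact h x hx

end chow

section weil

variable {C : TheoryData.{u, v, 0} 𝒱 ℚ} [hC : IsChowProj C] {K : Type w} [Field K]
  (H : WeilTheoryData.{u, v, w} C K) [hH : IsWeilProj H] {X : 𝒱.Obj}

include hC hH

/-- The theorem in terms of the ring of self-correspondences. -/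
theorem main' (X : 𝒱.Obj) [FiniteDimensional K (H.A (X.prod X))] (e : Cor C X)
    (he : e * e = e) :
    BeilNC C (cA C X e) ↔ ∃ p u v : Cor C X, (grading C X).pr 0 p = p ∧ p * p = p ∧
      u * v = e ∧ v * u = p ∧ ((grading C X).pr 0 e = e → p = e) ∧ BeilChow C (cA C X p) := by
  have hne : ∀ X : 𝒱.Obj, (1 : C.A X) ≠ 0 := one_ne H
  -- transport along isomorphisms
  have transport : ∀ e p u v : Cor C X, e * e = e → p * p = p → u * v = e → v * u = p →
      (∀ x : Cor C X, InRad (trA hne X) (e * x * e) → e * x * e = 0) →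
      ∀ x : Cor C X, InRad (trA hne X) (p * x * p) → p * x * p = 0 := by
    intro e p u v he hp huv hvu h x hx
    have h1 : e * (u * (p * x * p) * v) * e = u * (p * x * p) * v := by
      calc e * (u * (p * x * p) * v) * e = u * (v * u) * p * x * p * (v * u) * v := by
            rw [← huv]; simp only [mul_assoc]
        _ = u * (p * p) * x * (p * p) * v := by rw [hvu]; simp only [mul_assoc]
        _ = u * (p * x * p) * v := by rw [hp]; simp only [mul_assoc]
    have h2 : InRad (trA hne X) (u * (p * x * p) * v) :=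
      (hx.mul_left (fun a b => trA_comm a b) u).mul_right v
    have h3 : u * (p * x * p) * v = 0 := by
      rw [← h1]
      apply h
      rw [h1]
      exact h2
    calc p * x * p = p * p * x * (p * p) := by rw [hp]
      _ = p * (p * x * p) * p := by simp only [mul_assoc]
      _ = v * (u * (p * x * p) * v) * u := by
          nth_rewrite 1 [← hvu]
          nth_rewrite 3 [← hvu]
          simp only [mul_assoc]
      _ = 0 := by rw [h3, mul_zero, zero_mul]
  constructor
  · intro h
    have h' := (beilNC_iff hne).1 h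
    by_cases hd : (grading C X).pr 0 e = e
    · exact ⟨e, e, e, hd, he, he, he, fun _ => rfl, (beilChow_iff hne hd).2 h'⟩
    · have hg : Good (trA hne X) e := by
        refine good_of_bounded (fun a b => trA_comm a b) (m := 1) he ?_
        intro b hb hgb hbg
        rw [pow_one, ← hbg, ← hgb]
        apply h'
        rw [hgb, hbg]
        exact hb
      obtain ⟨p, u, v, h1, h2, h3, h4, -⟩ := (grading C X).exists_homogeneous_iso
        (tr := trA hne X) (fun j x hj => trA_pr j x hj) (fun a b => trA_comm a b)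
        (exists_finite H hne X) he hg
      exact ⟨p, u, v, h1, h2, h3, h4, fun h => absurd h hd,
        (beilChow_iff hne h1).2 (transport e p u v he h2 h3 h4 h')⟩
  · rintro ⟨p, u, v, h1, h2, h3, h4, -, h5⟩
    rw [beilChow_iff hne h1] at h5
    rw [beilNC_iff hne]
    exact transport p e v u h2 he h4 h3 h5

/-- The main theorem. -/
theorem main (X : 𝒱.Obj) [FiniteDimensional K (H.A (X.prod X))] (e : C.A (X.prod X))
    (he : C.comp e e = e) :
    BeilNC C e ↔ ∃ p u v : C.A (X.prod X), C.Deg X.dim p ∧ C.comp p p = p ∧ C.comp u v = e ∧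
      C.comp v u = p ∧ (C.Deg X.dim e → p = e) ∧ BeilChow C p := by
  have key := main' H X (show Cor C X from e) he
  constructor
  · intro h
    obtain ⟨p, u, v, h1, h2, h3, h4, h5, h6⟩ := key.1 h
    exact ⟨p, v, u, hdeg_iff.1 h1, h2, h3, h4, fun h => h5 (hdeg_iff.2 h), h6⟩
  · rintro ⟨p, v, u, h1, h2, h3, h4, h5, h6⟩
    exact key.2 ⟨p, u, v, hdeg_iff.2 h1, h2, h3, h4, fun h => h5 (hdeg_iff.1 h), h6⟩

end weil

end Pool.Agent.Y121.NB
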